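import Mathlib

set_option autoImplicit false
set_option linter.unusedSimpArgs false

/-!
# MP_7697ea_an, question Q1: the answer is negative

For a real polynomial `f`, and `n r : ℕ`, the polynomial `P_n^r` is
`toeplitzPoch f n r = ∑_{k_1+...+k_r=n} n!/(k_1! ... k_r!) (∏ f_{k_i}) det[(z+j-i)_{k_i}]`.

With `r = 3`, `n = 9` and `f = (z+1)^3 (z+20)^6` the polynomial `P_9^3` is a cubic with negative
discriminant, so it has a non-real zero.
-/

namespace Pool.Agent.Results.MP_7697ea_an.RealRootednessFails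

open Polynomial

/-- The polynomial `P_n^r` attached to the coefficients of `f`. The sum runs over all ordered
`r`-tuples `k : Fin r → ℕ` with `∑ k i = n`; the entry in row `i`, column `j` of the determinant is
the rising factorial of length `k i` starting at `z + j - i`. -/
noncomputable def toeplitzPoch (f : ℝ[X]) (n r : ℕ) : ℝ[X] :=
  ∑ k ∈ Finset.piAntidiag (Finset.univ : Finset (Fin r)) n,
    C (((n.factorial : ℝ) / ∏ i, ((k i).factorial : ℝ)) * ∏ i, f.coeff (k i)) *
      Matrix.det (Matrix.of fun i j : Fin r =>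
        (ascPochhammer ℝ (k i)).comp (X + C (((j : ℕ) : ℝ) - ((i : ℕ) : ℝ))))

/-- All complex zeros of `p` are negative real numbers. -/
def OnlyNegativeZeros (p : ℝ[X]) : Prop :=
  ∀ w : ℂ, aeval w p = 0 → w.im = 0 ∧ w.re < 0

lemma sum3 (F : (Fin 3 → ℕ) → ℝ) :
    ∑ k ∈ Finset.piAntidiag (Finset.univ : Finset (Fin 3)) 9, F k
      = ∑ p ∈ Finset.HasAntidiagonal.antidiagonal 9, ∑ q ∈ Finset.HasAntidiagonal.antidiagonal p.2, F ![p.1, q.1, q.2] := by
  rw [Finset.sum_sigma']
  refine Finset.sum_nbij' (fun k => ⟨(k 0, k 1 + k 2), (k 1, k 2)⟩)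
    (fun s => ![s.1.1, s.2.1, s.2.2]) ?_ ?_ ?_ ?_ ?_
  · intro k hk
    rw [Finset.mem_piAntidiag] at hk
    have h1 := hk.1
    rw [Fin.sum_univ_three] at h1
    simp only [Finset.mem_sigma, Finset.HasAntidiagonal.mem_antidiagonal, and_true]
    omega
  · intro s hs
    simp only [Finset.mem_sigma, Finset.HasAntidiagonal.mem_antidiagonal] at hs
    simp [Finset.mem_piAntidiag, Fin.sum_univ_three]
    omega
  · intro k hk
    funext i
    fin_cases i <;> rfl
  · rintro ⟨⟨a, b⟩, ⟨c, d⟩⟩ hs
    simp only [Finset.mem_sigma, Finset.HasAntidiagonal.mem_antidiagonal] at hs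
    obtain ⟨h1, h2⟩ := hs
    subst h2
    rfl
  · intro k hk
    congr 1
    funext i
    fin_cases i <;> rfl

/-- The witness. -/
noncomputable def f0 : ℝ[X] := (X + 1) ^ 3 * (X + 20) ^ 6

lemma f0_eq : f0 = C 64000000 + C 211200000 * X + C 252000000 * X ^ 2 + C 128960000 * X ^ 3
    + C 26886000 * X ^ 4 + C 2898120 * X ^ 5 + C 178361 * X ^ 6 + C 6363 * X ^ 7
    + C 123 * X ^ 8 + C 1 * X ^ 9 := by
  unfold f0
  simp only [map_ofNat, map_one]
  ring

lemma c0 : f0.coeff 0 = 64000000 := by rw [f0_eq]; simp [coeff_X, coeff_C, coeff_one]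
lemma c1 : f0.coeff 1 = 211200000 := by rw [f0_eq]; simp [coeff_X, coeff_C, coeff_one]
lemma c2 : f0.coeff 2 = 252000000 := by rw [f0_eq]; simp [coeff_X, coeff_C, coeff_one]
lemma c3 : f0.coeff 3 = 128960000 := by rw [f0_eq]; simp [coeff_X, coeff_C, coeff_one]
lemma c4 : f0.coeff 4 = 26886000 := by rw [f0_eq]; simp [coeff_X, coeff_C, coeff_one]
lemma c5 : f0.coeff 5 = 2898120 := by rw [f0_eq]; simp [coeff_X, coeff_C, coeff_one]
lemma c6 : f0.coeff 6 = 178361 := by rw [f0_eq]; simp [coeff_X, coeff_C, coeff_one]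
lemma c7 : f0.coeff 7 = 6363 := by rw [f0_eq]; simp [coeff_X, coeff_C, coeff_one]
lemma c8 : f0.coeff 8 = 123 := by rw [f0_eq]; simp [coeff_X, coeff_C, coeff_one]
lemma c9 : f0.coeff 9 = 1 := by rw [f0_eq]; simp [coeff_X, coeff_C, coeff_one]

/-- rising factorial as a real function -/
noncomputable def g : ℕ → ℝ → ℝ := fun k y => (ascPochhammer ℝ k).eval y

lemma g_zero (y : ℝ) : g 0 y = 1 := by simp [g]
lemma g_succ (k : ℕ) (y : ℝ) : g (k + 1) y = g k y * (y + k) := by
  simp [g, ascPochhammer_succ_eval]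

/-- one summand -/
noncomputable def T (x : ℝ) (a b c : ℕ) : ℝ :=
  ((362880 : ℝ) / ((a.factorial : ℝ) * (b.factorial : ℝ) * (c.factorial : ℝ)))
    * (f0.coeff a * f0.coeff b * f0.coeff c) *
   (g a x * g b x * g c x - g a x * g b (x + 1) * g c (x - 1)
    - g a (x + 1) * g b (x - 1) * g c x + g a (x + 1) * g b (x + 1) * g c (x - 2)
    + g a (x + 2) * g b (x - 1) * g c (x - 1) - g a (x + 2) * g b x * g c (x - 2))

lemma eval_P (x : ℝ) : (toeplitzPoch f0 9 3).eval x
    = ∑ p ∈ Finset.HasAntidiagonal.antidiagonal 9, ∑ q ∈ Finset.HasAntidiagonal.antidiagonal p.2, T x p.1 q.1 q.2 := by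
  unfold toeplitzPoch
  rw [Polynomial.eval_finsetSum, sum3]
  refine Finset.sum_congr rfl fun p _ => Finset.sum_congr rfl fun q _ => ?_
  rw [eval_mul, eval_C, Matrix.det_fin_three]
  simp only [Fin.prod_univ_three, Matrix.of_apply, Matrix.cons_val_zero, Matrix.cons_val_one,
    Matrix.cons_val_two, Matrix.head_cons, Matrix.tail_cons, eval_add, eval_sub, eval_mul, eval_comp,
    eval_X, eval_C]
  have e00 : x + ((((0 : Fin 3) : ℕ) : ℝ) - (((0 : Fin 3) : ℕ) : ℝ)) = x := by simp
  have e11 : x + ((((1 : Fin 3) : ℕ) : ℝ) - (((1 : Fin 3) : ℕ) : ℝ)) = x := by simp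
  have e22 : x + ((((2 : Fin 3) : ℕ) : ℝ) - (((2 : Fin 3) : ℕ) : ℝ)) = x := by simp
  have e10 : x + ((((1 : Fin 3) : ℕ) : ℝ) - (((0 : Fin 3) : ℕ) : ℝ)) = x + 1 := by simp
  have e01 : x + ((((0 : Fin 3) : ℕ) : ℝ) - (((1 : Fin 3) : ℕ) : ℝ)) = x - 1 := by
    simp; ring
  have e20 : x + ((((2 : Fin 3) : ℕ) : ℝ) - (((0 : Fin 3) : ℕ) : ℝ)) = x + 2 := by simp
  have e02 : x + ((((0 : Fin 3) : ℕ) : ℝ) - (((2 : Fin 3) : ℕ) : ℝ)) = x - 2 := by
    simp; ring
  have e21 : x + ((((2 : Fin 3) : ℕ) : ℝ) - (((1 : Fin 3) : ℕ) : ℝ)) = x + 1 := by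
    simp; norm_num
  have e12 : x + ((((1 : Fin 3) : ℕ) : ℝ) - (((2 : Fin 3) : ℕ) : ℝ)) = x - 1 := by
    simp; ring
  rw [e00, e11, e22, e10, e01, e20, e02, e21, e12]
  have hf : ((Nat.factorial 9 : ℕ) : ℝ) = 362880 := by norm_num [Nat.factorial]
  rw [hf]
  unfold T g
  ring


lemma sum_expand (F : ℕ → ℕ → ℕ → ℝ) :
    ∑ p ∈ Finset.HasAntidiagonal.antidiagonal 9,
      ∑ q ∈ Finset.HasAntidiagonal.antidiagonal p.2, F p.1 q.1 q.2
    = ∑ a ∈ Finset.range 10, ∑ b ∈ Finset.range (10 - a), F a b (9 - a - b) := by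
  rw [Finset.Nat.sum_antidiagonal_eq_sum_range_succ
    (fun a m => ∑ q ∈ Finset.HasAntidiagonal.antidiagonal m, F a q.1 q.2)]
  refine Finset.sum_congr rfl fun a ha => ?_
  rw [Finset.Nat.sum_antidiagonal_eq_sum_range_succ (fun b c => F a b c)]
  have : a ≤ 9 := by
    have := Finset.mem_range.1 ha
    omega
  have h2 : (9 - a).succ = 10 - a := by omega
  rw [h2]

lemma row0 (x : ℝ) : ∑ b ∈ Finset.range 10, T x 0 b (9 - 0 - b) =
    36636327641088000000000000 + 800070310189301760000000000 * x + 1800370484707737600000000000 * x ^ 2 + 1509151583987712000000000000 * x ^ 3 + 542227974543360000000000000 * x ^ 4 + 70012892715171840000000000 * x ^ 5 := by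
  simp only [Finset.sum_range_succ, Finset.sum_range_zero, T, g_succ, g_zero, c0, c1, c2, c3, c4,
    c5, c6, c7, c8, c9, Nat.factorial, Nat.reduceSub, Nat.reduceMul, Nat.reduceAdd, Nat.cast_ofNat,
    Nat.cast_one, Nat.cast_zero]
  ring

lemma row1 (x : ℝ) : ∑ b ∈ Finset.range 9, T x 1 b (9 - 1 - b) =
    3239362345372876800000000000 + 20297390233466142720000000000 * x + 40834090759182336000000000000 * x ^ 2 + 36552382612081459200000000000 * x ^ 3 + 15150257233142169600000000000 * x ^ 4 + 2373937492149780480000000000 * x ^ 5 := by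
  simp only [Finset.sum_range_succ, Finset.sum_range_zero, T, g_succ, g_zero, c0, c1, c2, c3, c4,
    c5, c6, c7, c8, c9, Nat.factorial, Nat.reduceSub, Nat.reduceMul, Nat.reduceAdd, Nat.cast_ofNat,
    Nat.cast_one, Nat.cast_zero]
  ring

lemma row2 (x : ℝ) : ∑ b ∈ Finset.range 8, T x 2 b (9 - 2 - b) =
    59932982823469056000000000000 + 229583565106392268800000000000 * x + 287519699863388160000000000000 * x ^ 2 + 135321437403758592000000000000 * x ^ 3 + 14171711698722816000000000000 * x ^ 4 + (-3280608124570828800000000000) * x ^ 5 := by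
  simp only [Finset.sum_range_succ, Finset.sum_range_zero, T, g_succ, g_zero, c0, c1, c2, c3, c4,
    c5, c6, c7, c8, c9, Nat.factorial, Nat.reduceSub, Nat.reduceMul, Nat.reduceAdd, Nat.cast_ofNat,
    Nat.cast_one, Nat.cast_zero]
  ring

lemma row3 (x : ℝ) : ∑ b ∈ Finset.range 7, T x 3 b (9 - 3 - b) =
    260309332045253836800000000000 + 602858869743668428800000000000 * x + 360245094031923609600000000000 * x ^ 2 + (-52932737054402150400000000000) * x ^ 3 + (-83816970205770547200000000000) * x ^ 4 + (-13188676817859379200000000000) * x ^ 5 := by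
  simp only [Finset.sum_range_succ, Finset.sum_range_zero, T, g_succ, g_zero, c0, c1, c2, c3, c4,
    c5, c6, c7, c8, c9, Nat.factorial, Nat.reduceSub, Nat.reduceMul, Nat.reduceAdd, Nat.cast_ofNat,
    Nat.cast_one, Nat.cast_zero]
  ring

lemma row4 (x : ℝ) : ∑ b ∈ Finset.range 6, T x 4 b (9 - 4 - b) =
    208072158262404710400000000000 + 158423588761684377600000000000 * x + (-135422615953026662400000000000) * x ^ 2 + (-68434699930439270400000000000) * x ^ 3 + 28241950316886835200000000000 * x ^ 4 + 10902603795019776000000000000 * x ^ 5 := by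
  simp only [Finset.sum_range_succ, Finset.sum_range_zero, T, g_succ, g_zero, c0, c1, c2, c3, c4,
    c5, c6, c7, c8, c9, Nat.factorial, Nat.reduceSub, Nat.reduceMul, Nat.reduceAdd, Nat.cast_ofNat,
    Nat.cast_one, Nat.cast_zero]
  ring

lemma row5 (x : ℝ) : ∑ b ∈ Finset.range 5, T x 5 b (9 - 5 - b) =
    11307553534771200000000000000 + (-56405011610808483840000000000) * x + 2468176439862067200000000000 * x ^ 2 + 53379847295089459200000000000 * x ^ 3 + 24365859621743001600000000000 * x ^ 4 + 3025164315719024640000000000 * x ^ 5 := by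
  simp only [Finset.sum_range_succ, Finset.sum_range_zero, T, g_succ, g_zero, c0, c1, c2, c3, c4,
    c5, c6, c7, c8, c9, Nat.factorial, Nat.reduceSub, Nat.reduceMul, Nat.reduceAdd, Nat.cast_ofNat,
    Nat.cast_one, Nat.cast_zero]
  ring

lemma row6 (x : ℝ) : ∑ b ∈ Finset.range 4, T x 6 b (9 - 6 - b) =
    (-2910554763824332800000000000) + 7907007108389437440000000000 * x + 13218769552368844800000000000 * x ^ 2 + 6548748218604748800000000000 * x ^ 3 + 1334004266752819200000000000 * x ^ 4 + 97018492127477760000000000 * x ^ 5 := by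
  simp only [Finset.sum_range_succ, Finset.sum_range_zero, T, g_succ, g_zero, c0, c1, c2, c3, c4,
    c5, c6, c7, c8, c9, Nat.factorial, Nat.reduceSub, Nat.reduceMul, Nat.reduceAdd, Nat.cast_ofNat,
    Nat.cast_one, Nat.cast_zero]
  ring

lemma row7 (x : ℝ) : ∑ b ∈ Finset.range 3, T x 7 b (9 - 7 - b) =
    394527383263641600000000000 + 572064705732280320000000000 * x + 317813725406822400000000000 * x ^ 2 + 84932978341478400000000000 * x ^ 3 + 10959093979545600000000000 * x ^ 4 + 547954698977280000000000 * x ^ 5 := by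
  simp only [Finset.sum_range_succ, Finset.sum_range_zero, T, g_succ, g_zero, c0, c1, c2, c3, c4,
    c5, c6, c7, c8, c9, Nat.factorial, Nat.reduceSub, Nat.reduceMul, Nat.reduceAdd, Nat.cast_ofNat,
    Nat.cast_one, Nat.cast_zero]
  ring

lemma row8 (x : ℝ) : ∑ b ∈ Finset.range 2, T x 8 b (9 - 8 - b) =
    0 := by
  simp only [Finset.sum_range_succ, Finset.sum_range_zero, T, g_succ, g_zero, c0, c1, c2, c3, c4,
    c5, c6, c7, c8, c9, Nat.factorial, Nat.reduceSub, Nat.reduceMul, Nat.reduceAdd, Nat.cast_ofNat,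
    Nat.cast_one, Nat.cast_zero]
  ring

lemma row9 (x : ℝ) : ∑ b ∈ Finset.range 1, T x 9 b (9 - 9 - b) =
    0 := by
  simp only [Finset.sum_range_succ, Finset.sum_range_zero, T, g_succ, g_zero, c0, c1, c2, c3, c4,
    c5, c6, c7, c8, c9, Nat.factorial, Nat.reduceSub, Nat.reduceMul, Nat.reduceAdd, Nat.cast_ofNat,
    Nat.cast_one, Nat.cast_zero]
  ring

lemma P_eval (x : ℝ) : (toeplitzPoch f0 9 3).eval x = 540381997958352076800000000000 + 964037544358713753600000000000 * x + 570981398903812915200000000000 * x ^ 2 + 112029063107022028800000000000 * x ^ 3 := by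
  rw [eval_P, sum_expand (fun a b c => T x a b c)]
  rw [Finset.sum_range_succ, Finset.sum_range_succ, Finset.sum_range_succ, Finset.sum_range_succ,
    Finset.sum_range_succ, Finset.sum_range_succ, Finset.sum_range_succ, Finset.sum_range_succ,
    Finset.sum_range_succ, Finset.sum_range_succ, Finset.sum_range_zero]
  simp only [Nat.reduceSub]
  have h0 := row0 x
  have h1 := row1 x
  have h2 := row2 x
  have h3 := row3 x
  have h4 := row4 x
  have h5 := row5 x
  have h6 := row6 x
  have h7 := row7 x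
  have h8 := row8 x
  have h9 := row9 x
  simp only [Nat.reduceSub] at h0 h1 h2 h3 h4 h5 h6 h7 h8 h9
  rw [h0, h1, h2, h3, h4, h5, h6, h7, h8, h9]
  ring

lemma P_eq : toeplitzPoch f0 9 3 = C 540381997958352076800000000000
    + C 964037544358713753600000000000 * X + C 570981398903812915200000000000 * X ^ 2
    + C 112029063107022028800000000000 * X ^ 3 := by
  apply Polynomial.funext
  intro x
  rw [P_eval]
  simp only [eval_add, eval_mul, eval_C, eval_X, eval_pow]

lemma P_aeval (w : ℂ) : aeval w (toeplitzPoch f0 9 3) =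
    619315200000000000 * (872547610584 + 1556618575418 * w + 921956055501 * w ^ 2
      + 180891835219 * w ^ 3) := by
  rw [P_eq]
  simp only [map_add, map_mul, aeval_C, aeval_X, map_pow, map_ofNat]
  ring

lemma not_onlyNeg : ¬ OnlyNegativeZeros (toeplitzPoch f0 9 3) := by
  intro h
  have key : ∀ w : ℂ, 872547610584 + 1556618575418 * w + 921956055501 * w ^ 2
      + 180891835219 * w ^ 3 = 0 → w.im = 0 := by
    intro w hw
    refine (h w ?_).1
    rw [P_aeval, hw, mul_zero]
  -- a first root
  obtain ⟨a, ha⟩ : ∃ a : ℂ, 872547610584 + 1556618575418 * a + 921956055501 * a ^ 2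
      + 180891835219 * a ^ 3 = 0 := by
    have hd : (C 872547610584 + C 1556618575418 * X + C 921956055501 * X ^ 2
      + C 180891835219 * X ^ 3 : ℂ[X]).degree ≠ 0 := by
      have : (C 872547610584 + C 1556618575418 * X + C 921956055501 * X ^ 2
        + C 180891835219 * X ^ 3 : ℂ[X]).degree = 3 := by
        have h3 : (C 872547610584 + C 1556618575418 * X + C 921956055501 * X ^ 2
          + C 180891835219 * X ^ 3 : ℂ[X]) = C 180891835219 * X ^ 3 + C 921956055501 * X ^ 2
            + C 1556618575418 * X + C 872547610584 := by ring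
        rw [h3]
        exact Polynomial.degree_cubic (by norm_num)
      rw [this]
      norm_num
    obtain ⟨a, ha⟩ := IsAlgClosed.exists_root _ hd
    refine ⟨a, ?_⟩
    rw [IsRoot.def] at ha
    simpa only [eval_add, eval_mul, eval_C, eval_X, eval_pow] using ha
  have ha0 := key a ha
  -- a second root, from the quotient
  obtain ⟨s, hs⟩ : ∃ s : ℂ, s ^ 2 = (921956055501 + 180891835219 * a) ^ 2
      - 4 * 180891835219 * (1556618575418 + 921956055501 * a + 180891835219 * a ^ 2) :=
    IsAlgClosed.exists_pow_nat_eq _ (by norm_num)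
  set b : ℂ := (s - (921956055501 + 180891835219 * a)) / (2 * 180891835219) with hb
  have hb' : 2 * 180891835219 * b + (921956055501 + 180891835219 * a) = s := by
    rw [hb]; field_simp; ring
  have hbroot : 872547610584 + 1556618575418 * b + 921956055501 * b ^ 2
      + 180891835219 * b ^ 3 = 0 := by
    have hq : 180891835219 * b ^ 2 + (921956055501 + 180891835219 * a) * b
        + (1556618575418 + 921956055501 * a + 180891835219 * a ^ 2) = 0 := by
      have h4 : (4 * 180891835219 : ℂ) ≠ 0 := by norm_num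
      apply mul_left_cancel₀ h4
      rw [← hb'] at hs
      linear_combination hs
    linear_combination ha + (b - a) * hq
  have hb0 := key b hbroot
  -- so the discriminant of the quotient is a nonnegative real number
  obtain ⟨x, rfl⟩ : ∃ x : ℝ, a = x := ⟨a.re, by
    apply Complex.ext <;> simp [ha0]⟩
  obtain ⟨y, hy⟩ : ∃ y : ℝ, b = y := ⟨b.re, by
    apply Complex.ext <;> simp [hb0]⟩
  rw [hy] at hb'
  rw [← hb'] at hs
  have hs' : (2 * 180891835219 * y + (921956055501 + 180891835219 * x)) ^ 2
      = (921956055501 + 180891835219 * x) ^ 2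
      - 4 * 180891835219 * (1556618575418 + 921956055501 * x + 180891835219 * x ^ 2) := by
    exact_mod_cast hs
  have ha' : 872547610584 + 1556618575418 * x + 921956055501 * x ^ 2
      + 180891835219 * x ^ 3 = 0 := by
    exact_mod_cast ha
  have hpos : 0 ≤ (921956055501 + 180891835219 * x) ^ 2
      - 4 * 180891835219 * (1556618575418 + 921956055501 * x + 180891835219 * x ^ 2) := by
    rw [← hs']; positivity
  have hpos2 : 0 ≤ ((921956055501 + 180891835219 * x) ^ 2
      - 4 * 180891835219 * (1556618575418 + 921956055501 * x + 180891835219 * x ^ 2)) *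
      (1556618575418 + 2 * 921956055501 * x + 3 * 180891835219 * x ^ 2) ^ 2 := by
    positivity
  have hval : ((921956055501 + 180891835219 * x) ^ 2
      - 4 * 180891835219 * (1556618575418 + 921956055501 * x + 180891835219 * x ^ 2)) *
      (1556618575418 + 2 * 921956055501 * x + 3 * 180891835219 * x ^ 2) ^ 2
      = -2933318655632965455710830609543786697647772 := by
    linear_combination (-767323437371454306527520639579070704
      - 1375257121592442358871369988398592846 * x
      - 814539059950861736220959552023563447 * x ^ 2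
      - 159816147996340837828075546731828393 * x ^ 3) * ha'
  rw [hval] at hpos2
  norm_num at hpos2

lemma f0_natDegree : f0.natDegree = 9 := by
  unfold f0
  have h1 : (X + 1 : ℝ[X]) = X + C 1 := by simp
  have h2 : (X + 20 : ℝ[X]) = X + C 20 := by rw [map_ofNat]
  rw [h1, h2, natDegree_mul (pow_ne_zero _ (X_add_C_ne_zero _)) (pow_ne_zero _ (X_add_C_ne_zero _)),
    natDegree_pow, natDegree_pow, natDegree_X_add_C, natDegree_X_add_C]

lemma f0_neg : OnlyNegativeZeros f0 := by
  intro w hw
  unfold f0 at hw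
  simp only [map_mul, map_pow, map_add, aeval_X, map_one, map_ofNat, mul_eq_zero] at hw
  rcases hw with hw | hw
  · have h1 : w + 1 = 0 := pow_eq_zero_iff (by norm_num) |>.1 hw
    have h2 : w = ((-1 : ℝ) : ℂ) := by
      push_cast
      linear_combination h1
    rw [h2]
    simp
  · have h1 : w + 20 = 0 := pow_eq_zero_iff (by norm_num) |>.1 hw
    have h2 : w = ((-20 : ℝ) : ℂ) := by
      push_cast
      linear_combination h1
    rw [h2]
    simp

lemma P_ne : toeplitzPoch f0 9 3 ≠ 0 := by
  intro h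
  have := P_eval 0
  rw [h] at this
  norm_num at this

/-- **The answer to Q1 is negative.** It is false that, for all `n`, all `r ≥ 2` and all real
polynomials `f` of degree exactly `n` all of whose complex zeros are negative reals, the polynomial
`P_n^r` is either zero or has only negative real zeros. -/
theorem result :
    ¬ ∀ (n r : ℕ) (f : ℝ[X]), 2 ≤ r → f ≠ 0 → f.natDegree = n → OnlyNegativeZeros f →
      toeplitzPoch f n r = 0 ∨ OnlyNegativeZeros (toeplitzPoch f n r) := by
  intro h
  rcases h 9 3 f0 (by norm_num) (by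
      intro h0
      have := f0_natDegree
      rw [h0] at this
      simp at this) f0_natDegree f0_neg with h1 | h1
  · exact P_ne h1
  · exact not_onlyNeg h1

end Pool.Agent.Results.MP_7697ea_an.RealRootednessFails
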